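import Mathlib
import Pool.Agent.V11282.WV.Fin

/-!
# A Schwartz-class orthonormal wavelet that is not band-limited

We construct a real-valued orthonormal wavelet in the Schwartz class whose Fourier transform is
not compactly supported.

The low-pass filter `m₀` is smooth, even and `1`-periodic, equal to `1` on `[-1/8, 1/8]`, zero on
`[3/8, 5/8]`, and it has an isolated zero of infinite order at `±1/3`; beyond that zero it does
not vanish up to `±3/8`.  The scaling function `φ^(ξ) = ∏ m₀(2^{-j} ξ)` is then nonzero on one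
side of the points `2^i · 2/3`, and the infinite order of the zero at `1/3` gives rapid decay of
all derivatives.  The orthonormal basis property follows from the quadrature relation, from
`∑ |φ^(ξ + k)|² = 1`, and from a telescoping Parseval argument.
-/

set_option autoImplicit false

open MeasureTheory
open scoped ComplexConjugate SchwartzMap FourierTransform

namespace Pool.Agent.Results.MP_27eeb4_an.NotBandLimited

noncomputable section

/-- `ψ_{j,k}(x) = 2^{j/2} ψ(2^j x - k)` -/
def dil (ψ : ℝ → ℂ) (j k : ℤ) (x : ℝ) : ℂ :=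
  (((2:ℝ) ^ ((j : ℝ) / 2) : ℝ) : ℂ) * ψ ((2:ℝ) ^ j * x - k)

/-- `ψ` is an orthonormal wavelet: the functions `ψ_{j,k}` are orthonormal in `L²(ℝ)` and only
the zero function of `L²(ℝ)` is orthogonal to all of them -/
structure IsOrthonormalWavelet (ψ : ℝ → ℂ) : Prop where
  memL2 : MemLp ψ 2
  orthonormal : ∀ j k j' k' : ℤ,
    ∫ x, dil ψ j k x * conj (dil ψ j' k' x) = if j = j' ∧ k = k' then 1 else 0
  total : ∀ f : ℝ → ℂ, MemLp f 2 → (∀ j k : ℤ, ∫ x, f x * conj (dil ψ j k x) = 0) →
    f =ᵐ[volume] 0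

/-- the Fourier transform `∫ f(x) e^{-2πixξ} dx` -/
def fourier (f : ℝ → ℂ) (ξ : ℝ) : ℂ :=
  ∫ x, f x * Complex.exp (-(2 * Real.pi * x * ξ : ℝ) * Complex.I)

lemma fourier_eq (f : ℝ → ℂ) : fourier f = 𝓕 f := by
  funext ξ
  rw [Real.fourier_real_eq_integral_exp_smul]
  unfold fourier
  congr 1
  funext x
  rw [smul_eq_mul, mul_comm]
  congr 3
  push_cast
  ring

/-- **Main theorem.** There is an orthonormal wavelet in the Schwartz class, real-valued, whose
Fourier transform is not compactly supported. -/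
theorem result : ∃ ψ : 𝓢(ℝ, ℂ), IsOrthonormalWavelet ψ ∧ (∀ x, (ψ x).im = 0) ∧
    ¬ HasCompactSupport (fourier ψ) := by
  refine ⟨Pool.Agent.V11282.WV.psi, ⟨?_, ?_, ?_⟩, Pool.Agent.V11282.WV.psi_real, ?_⟩
  · exact Pool.Agent.V11282.WV.psi.memLp 2 volume
  · exact Pool.Agent.V11282.WV.psi_orth
  · exact Pool.Agent.V11282.WV.psi_total
  · rw [fourier_eq, Pool.Agent.V11282.WV.psi_fourier]
    exact Pool.Agent.V11282.WV.Psi_not_cs

end

end Pool.Agent.Results.MP_27eeb4_an.NotBandLimited
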